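import Pool.Agent.Helper81.PW.Defs

/-!
Project PW (MP_b8862a_ag), block PW-D: Weyl's dimension formula in coordinates, types B, C, D.
-/

set_option linter.unusedSectionVars false
set_option linter.unusedVariables false

open Module PF TF

namespace PW

/-- a permutation that makes an injective function strictly decreasing -/
theorem exists_sort {m : ℕ} (f : Fin m → ℝ) (hf : Function.Injective f) :
    ∃ π : Equiv.Perm (Fin m), ∀ i j, i < j → f (π j) < f (π i) := by
  refine ⟨Tuple.sort (fun i => -f i), fun i j hij => ?_⟩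
  have h1 := Tuple.monotone_sort (fun i => -f i) hij.le
  have h2 : f (Tuple.sort (fun i => -f i) j) ≤ f (Tuple.sort (fun i => -f i) i) := by
    simpa using h1
  refine lt_of_le_of_ne h2 fun h3 => ?_
  have := (Tuple.sort (fun i => -f i)).injective (hf h3)
  exact hij.ne' this

theorem sum_Ioi_left {m : ℕ} (k : Fin m) :
    ∑ i : Fin m, ∑ _j ∈ Finset.Ioi i, (if i = k then (1 : ℝ) else 0) = (m : ℝ) - 1 - (k : ℕ) := by
  have h1 : ∀ i : Fin m, ∑ _j ∈ Finset.Ioi i, (if i = k then (1 : ℝ) else 0) =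
      if i = k then ((Finset.Ioi i).card : ℝ) else 0 := by
    intro i
    rw [Finset.sum_const, nsmul_eq_mul]
    split_ifs <;> simp
  rw [Finset.sum_congr rfl fun i _ => h1 i, Finset.sum_ite_eq' Finset.univ k, if_pos (Finset.mem_univ _), Fin.card_Ioi]
  have h2 := k.isLt
  rw [Nat.cast_sub (by omega), Nat.cast_sub (by omega)]
  simp

section

variable {E : Type*} [NormedAddCommGroup E] [InnerProductSpace ℝ E] {Φ X : Finset E} {m n : ℕ} {l v : E}
  {e : Fin m → E} {c : ℝ} {d : ℕ}

theorem fr_inner (F : Fr Φ m e c d) (i j : Fin m) : (inner ℝ (e i) (e j) : ℝ) = if i = j then 1 else 0 :=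
  orthonormal_iff_ite.1 F.on i j

theorem fr_mem (F : Fr Φ m e c d) (a : E) : a ∈ Φ ↔
    (∃ i j, i ≠ j ∧ ∃ s t : ℝ, (s = 1 ∨ s = -1) ∧ (t = 1 ∨ t = -1) ∧ a = c • (s • e i + t • e j)) ∨
    (d ≠ 0 ∧ ∃ i, ∃ s : ℝ, (s = 1 ∨ s = -1) ∧ a = (d * c : ℝ) • (s • e i)) := by
  rw [F.mem]
  constructor
  · rintro (⟨i, j, hij, h | h | h⟩ | ⟨hd, i, h | h⟩)
    · exact Or.inl ⟨i, j, hij, 1, 1, Or.inl rfl, Or.inl rfl, by rw [h, one_smul, one_smul]⟩
    · exact Or.inl ⟨i, j, hij, 1, -1, Or.inl rfl, Or.inr rfl, by rw [h, one_smul, neg_one_smul, sub_eq_add_neg]⟩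
    · exact Or.inl ⟨i, j, hij, -1, -1, Or.inr rfl, Or.inr rfl, by
        rw [h, neg_one_smul, neg_one_smul, ← neg_add, smul_neg]⟩
    · exact Or.inr ⟨hd, i, 1, Or.inl rfl, by rw [h, one_smul]⟩
    · exact Or.inr ⟨hd, i, -1, Or.inr rfl, by rw [h, neg_one_smul, smul_neg]⟩
  · rintro (⟨i, j, hij, s, t, rfl | rfl, rfl | rfl, h⟩ | ⟨hd, i, s, rfl | rfl, h⟩)
    · exact Or.inl ⟨i, j, hij, Or.inl (by rw [h, one_smul, one_smul])⟩
    · exact Or.inl ⟨i, j, hij, Or.inr (Or.inl (by rw [h, one_smul, neg_one_smul, sub_eq_add_neg]))⟩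
    · exact Or.inl ⟨j, i, hij.symm, Or.inr (Or.inl (by rw [h, one_smul, neg_one_smul, sub_eq_add_neg, add_comm]))⟩
    · exact Or.inl ⟨i, j, hij, Or.inr (Or.inr (by rw [h, neg_one_smul, neg_one_smul, ← neg_add, smul_neg]))⟩
    · exact Or.inr ⟨hd, i, Or.inl (by rw [h, one_smul])⟩
    · exact Or.inr ⟨hd, i, Or.inr (by rw [h, neg_one_smul, smul_neg])⟩

theorem sgn_mul {s t : ℝ} (hs : s = 1 ∨ s = -1) (ht : t = 1 ∨ t = -1) : s * t = 1 ∨ s * t = -1 := by
  rcases hs with rfl | rfl <;> rcases ht with rfl | rfl <;> norm_num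

theorem sgn_sq {s : ℝ} (hs : s = 1 ∨ s = -1) : s * s = 1 := by
  rcases hs with rfl | rfl <;> norm_num

/-- the frame after a signed permutation -/
theorem fr_signed (F : Fr Φ m e c d) (π : Equiv.Perm (Fin m)) {s : Fin m → ℝ} (hs : ∀ i, s i = 1 ∨ s i = -1) :
    Fr Φ m (fun i => s i • e (π i)) c d where
  on := by
    rw [orthonormal_iff_ite]
    intro i j
    rw [inner_smul_left, inner_smul_right, fr_inner F]
    simp only [conj_trivial, EmbeddingLike.apply_eq_iff_eq]
    split_ifs with h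
    · subst h
      rw [mul_one]
      exact sgn_sq (hs i)
    · simp
  pos := F.pos
  le := F.le
  mem := by
    intro a
    have key : ∀ i, ∀ t : ℝ, t • e i = (t * s (π.symm i)) • (s (π.symm i) • e (π (π.symm i))) := by
      intro i t
      rw [smul_smul, mul_assoc, sgn_sq (hs _), mul_one, Equiv.apply_symm_apply]
    -- it is enough to have the statement with signs
    suffices h : a ∈ Φ ↔
        (∃ i j, i ≠ j ∧ ∃ t u : ℝ, (t = 1 ∨ t = -1) ∧ (u = 1 ∨ u = -1) ∧
          a = c • (t • (s i • e (π i)) + u • (s j • e (π j)))) ∨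
        (d ≠ 0 ∧ ∃ i, ∃ t : ℝ, (t = 1 ∨ t = -1) ∧ a = (d * c : ℝ) • (t • (s i • e (π i)))) by
      rw [h]
      constructor
      · rintro (⟨i, j, hij, t, u, rfl | rfl, rfl | rfl, h⟩ | ⟨hd, i, t, rfl | rfl, h⟩)
        · exact Or.inl ⟨i, j, hij, Or.inl (by rw [h, one_smul, one_smul])⟩
        · exact Or.inl ⟨i, j, hij, Or.inr (Or.inl (by rw [h, one_smul, neg_one_smul, sub_eq_add_neg]))⟩
        · exact Or.inl ⟨j, i, hij.symm, Or.inr (Or.inl (by rw [h, one_smul, neg_one_smul, sub_eq_add_neg, add_comm]))⟩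
        · exact Or.inl ⟨i, j, hij, Or.inr (Or.inr (by rw [h, neg_one_smul, neg_one_smul, ← neg_add, smul_neg]))⟩
        · exact Or.inr ⟨hd, i, Or.inl (by rw [h, one_smul])⟩
        · exact Or.inr ⟨hd, i, Or.inr (by rw [h, neg_one_smul, smul_neg])⟩
      · rintro (⟨i, j, hij, h | h | h⟩ | ⟨hd, i, h | h⟩)
        · exact Or.inl ⟨i, j, hij, 1, 1, Or.inl rfl, Or.inl rfl, by rw [h, one_smul, one_smul]⟩
        · exact Or.inl ⟨i, j, hij, 1, -1, Or.inl rfl, Or.inr rfl, by rw [h, one_smul, neg_one_smul, sub_eq_add_neg]⟩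
        · exact Or.inl ⟨i, j, hij, -1, -1, Or.inr rfl, Or.inr rfl, by
            rw [h, neg_one_smul, neg_one_smul, ← neg_add, smul_neg]⟩
        · exact Or.inr ⟨hd, i, 1, Or.inl rfl, by rw [h, one_smul]⟩
        · exact Or.inr ⟨hd, i, -1, Or.inr rfl, by rw [h, neg_one_smul, smul_neg]⟩
    rw [fr_mem F]
    constructor
    · rintro (⟨i, j, hij, t, u, ht, hu, h⟩ | ⟨hd, i, t, ht, h⟩)
      · refine Or.inl ⟨π.symm i, π.symm j, fun h' => hij (π.symm.injective h'), t * s (π.symm i), u * s (π.symm j),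
          sgn_mul ht (hs _), sgn_mul hu (hs _), ?_⟩
        rw [h, ← key, ← key]
      · refine Or.inr ⟨hd, π.symm i, t * s (π.symm i), sgn_mul ht (hs _), ?_⟩
        rw [h, ← key]
    · rintro (⟨i, j, hij, t, u, ht, hu, h⟩ | ⟨hd, i, t, ht, h⟩)
      · refine Or.inl ⟨π i, π j, fun h' => hij (π.injective h'), t * s i, u * s j,
          sgn_mul ht (hs _), sgn_mul hu (hs _), ?_⟩
        rw [h, smul_smul, smul_smul]
      · refine Or.inr ⟨hd, π i, t * s i, sgn_mul ht (hs _), ?_⟩
        rw [h, smul_smul t]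

/-- the pairs `i < j` -/
def P2 (m : ℕ) : Finset (Σ _ : Fin m, Fin m) := Finset.univ.sigma fun i => Finset.Ioi i

theorem mem_P2 {t : Σ _ : Fin m, Fin m} : t ∈ P2 m ↔ t.1 < t.2 := by simp [P2]

/-- the index set of the positive roots -/
def Ti (d m : ℕ) : Finset ((Σ _ : Fin m, Fin m) ⊕ ((Σ _ : Fin m, Fin m) ⊕ Fin m)) :=
  (P2 m).disjSum ((P2 m).disjSum (if d = 0 then ∅ else Finset.univ))

/-- the positive roots -/
noncomputable def ph (e : Fin m → E) (c : ℝ) (d : ℕ) : ((Σ _ : Fin m, Fin m) ⊕ ((Σ _ : Fin m, Fin m) ⊕ Fin m)) → E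
  | Sum.inl t => c • (e t.1 - e t.2)
  | Sum.inr (Sum.inl t) => c • (e t.1 + e t.2)
  | Sum.inr (Sum.inr i) => (d * c : ℝ) • e i

theorem inner_pm (F : Fr Φ m e c d) (a b i j k : Fin m) (s t : ℝ) :
    (inner ℝ (c • (s • e i + t • e j)) (e k) : ℝ) = c * (s * (if i = k then 1 else 0) + t * (if j = k then 1 else 0)) := by
  rw [inner_smul_left, inner_add_left, inner_smul_left, inner_smul_left, fr_inner F, fr_inner F]
  simp only [conj_trivial]

/-- the coordinates of the positive roots -/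
def cf (d : ℕ) (k : Fin m) : ((Σ _ : Fin m, Fin m) ⊕ ((Σ _ : Fin m, Fin m) ⊕ Fin m)) → ℝ
  | Sum.inl t => (if t.1 = k then 1 else 0) - (if t.2 = k then 1 else 0)
  | Sum.inr (Sum.inl t) => (if t.1 = k then 1 else 0) + (if t.2 = k then 1 else 0)
  | Sum.inr (Sum.inr i) => (d : ℝ) * (if i = k then 1 else 0)

theorem ph_inj (F : Fr Φ m e c d) : Set.InjOn (ph e c d)
    (Ti d m : Set ((Σ _ : Fin m, Fin m) ⊕ ((Σ _ : Fin m, Fin m) ⊕ Fin m))) := by
  have hc := F.pos
  have hco : ∀ (t : (Σ _ : Fin m, Fin m) ⊕ ((Σ _ : Fin m, Fin m) ⊕ Fin m)) (k : Fin m),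
      (inner ℝ (ph e c d t) (e k) : ℝ) = c * cf d k t := by
    rintro (t | t | i) k
    all_goals simp only [cf]
    · simp only [ph]
      rw [inner_smul_left, inner_sub_left, fr_inner F, fr_inner F]
      simp only [conj_trivial]
    · simp only [ph]
      rw [inner_smul_left, inner_add_left, fr_inner F, fr_inner F]
      simp only [conj_trivial]
    · simp only [ph]
      rw [inner_smul_left, fr_inner F]
      simp only [conj_trivial]
      ring
  intro t ht t' ht' htt
  have key : ∀ k : Fin m, cf d k t = cf d k t' := by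
    intro k
    have h1 := hco t k
    rw [htt, hco t' k] at h1
    exact (mul_left_cancel₀ hc.ne' h1).symm
  have hd : ∀ i : Fin m, Sum.inr (Sum.inr i) ∈ (Ti d m : Set ((Σ _ : Fin m, Fin m) ⊕ ((Σ _ : Fin m, Fin m) ⊕ Fin m))) →
      d ≠ 0 := by
    intro i hi h0
    rw [Finset.mem_coe, Ti, Finset.inr_mem_disjSum, Finset.inr_mem_disjSum, if_pos h0] at hi
    simp at hi
  rcases t with ⟨i, j⟩ | ⟨i, j⟩ | i <;> rcases t' with ⟨i', j'⟩ | ⟨i', j'⟩ | i'
  · have hij : i < j := by simpa [Ti, mem_P2] using ht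
    have hij' : i' < j' := by simpa [Ti, mem_P2] using ht'
    have e1 := key i
    have e2 := key j
    simp only [cf] at e1 e2
    rw [if_pos trivial, if_neg hij.ne'] at e1
    rw [if_neg hij.ne, if_pos trivial] at e2
    have h1 : i' = i := by
      by_contra h
      rw [if_neg h] at e1
      split_ifs at e1 <;> norm_num at e1
    have h2 : j' = j := by
      by_contra h
      rw [if_neg h] at e2
      split_ifs at e2 <;> norm_num at e2
    rw [h1, h2]
  · exfalso
    have hij : i < j := by simpa [Ti, mem_P2] using ht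
    have e2 := key j
    simp only [cf] at e2
    rw [if_neg hij.ne, if_pos trivial] at e2
    split_ifs at e2 <;> norm_num at e2
  · exfalso
    have hij : i < j := by simpa [Ti, mem_P2] using ht
    have e2 := key j
    simp only [cf] at e2
    rw [if_neg hij.ne, if_pos trivial] at e2
    have hd0 : (0 : ℝ) ≤ d := Nat.cast_nonneg d
    split_ifs at e2 <;> linarith
  · exfalso
    have hij' : i' < j' := by simpa [Ti, mem_P2] using ht'
    have e2 := key j'
    simp only [cf] at e2
    rw [if_neg hij'.ne, if_pos trivial] at e2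
    split_ifs at e2 <;> norm_num at e2
  · have hij : i < j := by simpa [Ti, mem_P2] using ht
    have hij' : i' < j' := by simpa [Ti, mem_P2] using ht'
    have e1 := key i
    have e2 := key j
    have e3 := key i'
    have e4 := key j'
    simp only [cf] at e1 e2 e3 e4
    rw [if_pos trivial, if_neg hij.ne'] at e1
    rw [if_neg hij.ne, if_pos trivial] at e2
    rw [if_pos trivial, if_neg hij'.ne'] at e3
    rw [if_neg hij'.ne, if_pos trivial] at e4
    have h1 : i' = i ∨ j' = i := by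
      by_contra h
      push Not at h
      rw [if_neg h.1, if_neg h.2] at e1
      norm_num at e1
    have h2 : i' = j ∨ j' = j := by
      by_contra h
      push Not at h
      rw [if_neg h.1, if_neg h.2] at e2
      norm_num at e2
    have h3 : i' = i := by
      rcases h1 with h1 | h1
      · exact h1
      · rcases h2 with h2 | h2
        · exfalso
          rw [h1, h2] at hij'
          exact lt_asymm hij hij'
        · exfalso
          rw [← h1, ← h2] at hij
          exact lt_irrefl _ hij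
    have h4 : j' = j := by
      rcases h2 with h2 | h2
      · exfalso
        rw [← h3, ← h2] at hij
        exact lt_irrefl _ hij
      · exact h2
    rw [h3, h4]
  · exfalso
    have hij : i < j := by simpa [Ti, mem_P2] using ht
    have e1 := key i
    have e2 := key j
    simp only [cf] at e1 e2
    rw [if_pos trivial, if_neg hij.ne'] at e1
    rw [if_neg hij.ne, if_pos trivial] at e2
    by_cases h : i' = i
    · rw [h, if_neg hij.ne] at e2
      norm_num at e2
    · rw [if_neg h] at e1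
      norm_num at e1
  · exfalso
    have hij' : i' < j' := by simpa [Ti, mem_P2] using ht'
    have e2 := key j'
    simp only [cf] at e2
    rw [if_neg hij'.ne, if_pos trivial] at e2
    have hd0 : (0 : ℝ) ≤ d := Nat.cast_nonneg d
    split_ifs at e2 <;> linarith
  · exfalso
    have hij' : i' < j' := by simpa [Ti, mem_P2] using ht'
    have e1 := key i'
    have e2 := key j'
    simp only [cf] at e1 e2
    rw [if_pos trivial, if_neg hij'.ne'] at e1
    rw [if_neg hij'.ne, if_pos trivial] at e2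
    by_cases h : i = i'
    · rw [h, if_neg hij'.ne] at e2
      norm_num at e2
    · rw [if_neg h] at e1
      norm_num at e1
  · have hd1 := hd i ht
    have e1 := key i
    simp only [cf] at e1
    rw [if_pos trivial] at e1
    have h1 : i' = i := by
      by_contra h
      rw [if_neg h] at e1
      have : (d : ℝ) = 0 := by linarith
      exact hd1 (by exact_mod_cast this)
    rw [h1]

open Classical in
theorem ps_fr (F : Fr Φ m e c d) (hgt : ∀ i j, i < j → |(inner ℝ v (e j) : ℝ)| < inner ℝ v (e i))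
    (hpos : d ≠ 0 → ∀ i, (0 : ℝ) < inner ℝ v (e i)) : Ps Φ v = (Ti d m).image (ph e c d) := by
  have hc := F.pos
  ext a
  rw [Finset.mem_image]
  unfold Ps
  rw [Finset.mem_filter]
  constructor
  · rintro ⟨ha, h0⟩
    rcases (fr_mem F a).1 ha with ⟨i, j, hij, s, t, hs, ht, rfl⟩ | ⟨hd, i, s, hs, rfl⟩
    · -- it is enough to do `i < j`
      have main : ∀ i j : Fin m, i < j → ∀ s t : ℝ, (s = 1 ∨ s = -1) → (t = 1 ∨ t = -1) →
          (0 : ℝ) < inner ℝ v (c • (s • e i + t • e j)) → ∃ b ∈ Ti d m, ph e c d b = c • (s • e i + t • e j) := by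
        intro i j hij s t hs ht h0
        rw [inner_smul_right, inner_add_right, inner_smul_right, inner_smul_right] at h0
        have h1 := hgt i j hij
        rw [abs_lt] at h1
        have h2 := (mul_pos_iff_of_pos_left hc).1 h0
        rcases hs with rfl | rfl
        · rcases ht with rfl | rfl
          · refine ⟨Sum.inr (Sum.inl ⟨i, j⟩), ?_, ?_⟩
            · rw [Ti, Finset.inr_mem_disjSum, Finset.inl_mem_disjSum, mem_P2]
              exact hij
            · simp only [ph, one_smul]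
          · refine ⟨Sum.inl ⟨i, j⟩, ?_, ?_⟩
            · rw [Ti, Finset.inl_mem_disjSum, mem_P2]
              exact hij
            · simp only [ph, one_smul, neg_smul, sub_eq_add_neg]
        · exfalso
          rcases ht with rfl | rfl <;> linarith
      rcases lt_or_gt_of_ne hij with h | h
      · exact main i j h s t hs ht h0
      · obtain ⟨b, hb, h1⟩ := main j i h t s ht hs (by rw [add_comm]; exact h0)
        exact ⟨b, hb, by rw [h1, add_comm]⟩
    · rw [inner_smul_right, inner_smul_right] at h0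
      have h1 := hpos hd i
      have h2 : (0 : ℝ) < d * c := mul_pos (by exact_mod_cast Nat.pos_of_ne_zero hd) hc
      have h3 := (mul_pos_iff_of_pos_left h2).1 h0
      rcases hs with rfl | rfl
      · refine ⟨Sum.inr (Sum.inr i), ?_, ?_⟩
        · rw [Ti, Finset.inr_mem_disjSum, Finset.inr_mem_disjSum, if_neg hd]
          exact Finset.mem_univ _
        · simp only [ph, one_smul]
      · exfalso
        linarith
  · rintro ⟨b, hb, rfl⟩
    rcases b with ⟨i, j⟩ | ⟨i, j⟩ | i
    · have hij : i < j := by simpa [Ti, mem_P2] using hb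
      have h1 := hgt i j hij
      rw [abs_lt] at h1
      refine ⟨(F.mem _).2 (Or.inl ⟨i, j, hij.ne, Or.inr (Or.inl rfl)⟩), ?_⟩
      simp only [ph]
      rw [inner_smul_right, inner_sub_right]
      exact mul_pos hc (by linarith)
    · have hij : i < j := by simpa [Ti, mem_P2] using hb
      have h1 := hgt i j hij
      rw [abs_lt] at h1
      refine ⟨(F.mem _).2 (Or.inl ⟨i, j, hij.ne, Or.inl rfl⟩), ?_⟩
      simp only [ph]
      rw [inner_smul_right, inner_add_right]
      exact mul_pos hc (by linarith)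
    · have hd : d ≠ 0 := by
        intro h0
        rw [Ti, Finset.inr_mem_disjSum, Finset.inr_mem_disjSum, if_pos h0] at hb
        simp at hb
      have h2 : (0 : ℝ) < d * c := mul_pos (by exact_mod_cast Nat.pos_of_ne_zero hd) hc
      refine ⟨(F.mem _).2 (Or.inr ⟨hd, i, Or.inl rfl⟩), ?_⟩
      simp only [ph]
      rw [inner_smul_right]
      exact mul_pos h2 (hpos hd i)

theorem prod_ps (F : Fr Φ m e c d) (hgt : ∀ i j, i < j → |(inner ℝ v (e j) : ℝ)| < inner ℝ v (e i))
    (hpos : d ≠ 0 → ∀ i, (0 : ℝ) < inner ℝ v (e i)) (G : E → ℝ) :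
    ∏ a ∈ Ps Φ v, G a = (∏ i, ∏ j ∈ Finset.Ioi i, G (c • (e i - e j))) *
      ((∏ i, ∏ j ∈ Finset.Ioi i, G (c • (e i + e j))) * (if d = 0 then 1 else ∏ i, G ((d * c : ℝ) • e i))) := by
  classical
  rw [ps_fr F hgt hpos, Finset.prod_image (ph_inj F), Ti, Finset.prod_disjSum, Finset.prod_disjSum]
  congr 1
  · rw [P2, Finset.prod_sigma]
    rfl
  · congr 1
    · rw [P2, Finset.prod_sigma]
      rfl
    · split_ifs with h
      · simp
      · rfl

theorem sum_ps (F : Fr Φ m e c d) (hgt : ∀ i j, i < j → |(inner ℝ v (e j) : ℝ)| < inner ℝ v (e i))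
    (hpos : d ≠ 0 → ∀ i, (0 : ℝ) < inner ℝ v (e i)) (G : E → ℝ) :
    ∑ a ∈ Ps Φ v, G a = (∑ i, ∑ j ∈ Finset.Ioi i, G (c • (e i - e j))) +
      ((∑ i, ∑ j ∈ Finset.Ioi i, G (c • (e i + e j))) + (if d = 0 then 0 else ∑ i, G ((d * c : ℝ) • e i))) := by
  classical
  rw [ps_fr F hgt hpos, Finset.sum_image (ph_inj F), Ti, Finset.sum_disjSum, Finset.sum_disjSum]
  congr 1
  · rw [P2, Finset.sum_sigma]
    rfl
  · congr 1
    · rw [P2, Finset.sum_sigma]
      rfl
    · split_ifs with h
      · simp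
      · rfl

/-- the coordinates of twice half the sum of the positive roots -/
theorem v_coord (F : Fr Φ m e c d) (hgt : ∀ i j, i < j → |(inner ℝ v (e j) : ℝ)| < inner ℝ v (e i))
    (hpos : d ≠ 0 → ∀ i, (0 : ℝ) < inner ℝ v (e i)) (hv : v = ∑ a ∈ Ps Φ v, a) (k : Fin m) :
    (inner ℝ v (e k) : ℝ) = c * Vd d m k := by
  have h1 : (inner ℝ v (e k) : ℝ) = ∑ a ∈ Ps Φ v, inner ℝ a (e k) := by
    conv_lhs => rw [hv]
    rw [sum_inner]
  rw [h1, sum_ps F hgt hpos]
  have h2 : ∀ i j : Fin m, (inner ℝ (c • (e i - e j)) (e k) : ℝ) =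
      c * (if i = k then 1 else 0) - c * (if j = k then 1 else 0) := by
    intro i j
    rw [inner_smul_left, inner_sub_left, fr_inner F, fr_inner F]
    simp only [conj_trivial]
    ring
  have h3 : ∀ i j : Fin m, (inner ℝ (c • (e i + e j)) (e k) : ℝ) =
      c * (if i = k then 1 else 0) + c * (if j = k then 1 else 0) := by
    intro i j
    rw [inner_smul_left, inner_add_left, fr_inner F, fr_inner F]
    simp only [conj_trivial]
    ring
  have h4 : (if d = 0 then (0 : ℝ) else ∑ i, (inner ℝ ((d * c : ℝ) • e i) (e k) : ℝ)) = d * c := by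
    split_ifs with h
    · rw [h]; simp
    · have : ∀ i, (inner ℝ ((d * c : ℝ) • e i) (e k) : ℝ) = if i = k then (d * c : ℝ) else 0 := by
        intro i
        rw [inner_smul_left, fr_inner F]
        simp only [conj_trivial]
        split_ifs <;> ring
      rw [Finset.sum_congr rfl fun i _ => this i, Finset.sum_ite_eq' Finset.univ k, if_pos (Finset.mem_univ _)]
  rw [h4]
  simp_rw [h2, h3]
  have h5 : (∑ i : Fin m, ∑ j ∈ Finset.Ioi i, (c * (if i = k then (1 : ℝ) else 0) - c * (if j = k then 1 else 0))) +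
      ∑ i : Fin m, ∑ j ∈ Finset.Ioi i, (c * (if i = k then (1 : ℝ) else 0) + c * (if j = k then 1 else 0)) =
      2 * c * ∑ i : Fin m, ∑ _j ∈ Finset.Ioi i, (if i = k then (1 : ℝ) else 0) := by
    rw [← Finset.sum_add_distrib, Finset.mul_sum]
    refine Finset.sum_congr rfl fun i _ => ?_
    rw [← Finset.sum_add_distrib, Finset.mul_sum]
    refine Finset.sum_congr rfl fun j _ => ?_
    ring
  rw [← add_assoc, h5, sum_Ioi_left]
  unfold Vd
  push_cast
  ring

/-- the constant factors of the product -/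
theorem prod_fact (c : ℝ) (d m : ℕ) (y : Fin m → ℝ) :
    (∏ i, ∏ j ∈ Finset.Ioi i, c * (c * y i - c * y j)) *
      ((∏ i, ∏ j ∈ Finset.Ioi i, c * (c * y i + c * y j)) * (if d = 0 then 1 else ∏ i, (d * c) * (c * y i))) =
    ((∏ i : Fin m, ∏ _j ∈ Finset.Ioi i, (c ^ 4)) * (if d = 0 then 1 else ∏ _i : Fin m, (d * c ^ 2 : ℝ))) *
      ((∏ i, ∏ j ∈ Finset.Ioi i, (y i ^ 2 - y j ^ 2)) * (if d = 0 then 1 else ∏ i, y i)) := by
  have h1 : (∏ i, ∏ j ∈ Finset.Ioi i, c * (c * y i - c * y j)) * (∏ i, ∏ j ∈ Finset.Ioi i, c * (c * y i + c * y j)) =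
      (∏ i : Fin m, ∏ _j ∈ Finset.Ioi i, (c ^ 4)) * ∏ i, ∏ j ∈ Finset.Ioi i, (y i ^ 2 - y j ^ 2) := by
    rw [← Finset.prod_mul_distrib, ← Finset.prod_mul_distrib]
    refine Finset.prod_congr rfl fun i _ => ?_
    rw [← Finset.prod_mul_distrib, ← Finset.prod_mul_distrib]
    refine Finset.prod_congr rfl fun j _ => ?_
    ring
  have h2 : (if d = 0 then (1 : ℝ) else ∏ i, (d * c) * (c * y i)) =
      (if d = 0 then 1 else ∏ _i : Fin m, (d * c ^ 2 : ℝ)) * (if d = 0 then 1 else ∏ i, y i) := by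
    split_ifs with h
    · simp
    · rw [← Finset.prod_mul_distrib]
      refine Finset.prod_congr rfl fun i _ => ?_
      ring
  rw [← mul_assoc, h1, h2]
  ring

theorem Vd_lt {i j : Fin m} (hij : i < j) : Vd d m j < Vd d m i := by
  unfold Vd
  have : (i : ℕ) < (j : ℕ) := hij
  omega

theorem Vd_nonneg (i : Fin m) : 0 ≤ Vd d m i := by
  unfold Vd
  have := i.isLt
  omega

theorem Pd_zero_ne (d m : ℕ) : Pd d m 0 ≠ 0 := by
  unfold Pd
  refine mul_ne_zero ?_ ?_
  · refine Finset.prod_ne_zero_iff.2 fun i _ => Finset.prod_ne_zero_iff.2 fun j hj => ?_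
    have h1 : i < j := by simpa using hj
    have h2 := Vd_lt (d := d) h1
    have h3 := Vd_nonneg (d := d) j
    simp only [Pi.zero_apply, mul_zero, zero_add]
    have h4 : 0 < (Vd d m i - Vd d m j) * (Vd d m i + Vd d m j) := mul_pos (by linarith) (by linarith)
    nlinarith
  · split_ifs with h
    · exact one_ne_zero
    · refine Finset.prod_ne_zero_iff.2 fun i _ => ?_
      simp only [Pi.zero_apply, mul_zero, zero_add]
      have := i.isLt
      unfold Vd
      omega

/-- **PW-D.** Weyl's dimension formula in coordinates, types B, C, D. -/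
theorem dim_fr (h : Wd Φ X n l v) (F : Fr Φ m e c d) (hm : 2 ≤ m) {k : Fin m → ℤ}
    (hk : ∀ i, (inner ℝ l (e i) : ℝ) = c * k i) :
    ∃ x : Fin m → ℤ, ∑ i, |x i| = ∑ i, |k i| ∧ (∀ i j, i < j → |x j| ≤ x i) ∧ n * Pd d m 0 = Pd d m x ∧
      Pd d m 0 ≠ 0 := by
  classical
  have hc := F.pos
  -- regularity
  have hreg : ∀ i j, i ≠ j → (inner ℝ v (e i) : ℝ) ≠ inner ℝ v (e j) ∧ (inner ℝ v (e i) : ℝ) ≠ -inner ℝ v (e j) := by
    intro i j hij
    constructor
    · intro h1
      refine h.reg (c • (e i - e j)) ((F.mem _).2 (Or.inl ⟨i, j, hij, Or.inr (Or.inl rfl)⟩)) ?_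
      rw [inner_smul_right, inner_sub_right, h1]
      ring
    · intro h1
      refine h.reg (c • (e i + e j)) ((F.mem _).2 (Or.inl ⟨i, j, hij, Or.inl rfl⟩)) ?_
      rw [inner_smul_right, inner_add_right, h1]
      ring
  have hinj : Function.Injective fun i => |(inner ℝ v (e i) : ℝ)| := by
    intro i j hij
    by_contra hne
    rcases abs_eq_abs.1 hij with h1 | h1
    · exact (hreg i j hne).1 h1
    · exact (hreg i j hne).2 h1
  obtain ⟨π, hπ⟩ := exists_sort _ hinj
  set s : Fin m → ℤ := fun i => if 0 ≤ (inner ℝ v (e (π i)) : ℝ) then 1 else -1 with hs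
  have hs1 : ∀ i, (s i : ℝ) = 1 ∨ (s i : ℝ) = -1 := by
    intro i
    simp only [hs]
    split_ifs <;> simp
  have hs2 : ∀ i, |s i| = 1 := by
    intro i
    simp only [hs]
    split_ifs <;> simp
  have F' := fr_signed F π hs1
  set e' : Fin m → E := fun i => (s i : ℝ) • e (π i) with he'
  have hw : ∀ i, (inner ℝ v (e' i) : ℝ) = |(inner ℝ v (e (π i)) : ℝ)| := by
    intro i
    simp only [he', hs]
    rw [inner_smul_right]
    split_ifs with h1
    · rw [abs_of_nonneg h1]; simp
    · rw [abs_of_neg (not_le.1 h1)]; simp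
  have hgt : ∀ i j, i < j → |(inner ℝ v (e' j) : ℝ)| < inner ℝ v (e' i) := by
    intro i j hij
    rw [hw, hw, abs_abs]
    exact hπ i j hij
  have hpos : d ≠ 0 → ∀ i, (0 : ℝ) < inner ℝ v (e' i) := by
    intro hd i
    rw [hw, abs_pos]
    intro h1
    refine h.reg ((d * c : ℝ) • e (π i)) ((F.mem _).2 (Or.inr ⟨hd, π i, Or.inl rfl⟩)) ?_
    rw [inner_smul_right, h1, mul_zero]
  have hV := v_coord F' hgt hpos h.v_eq
  have hl : ∀ i, (inner ℝ l (e' i) : ℝ) = c * ((s i * k (π i) : ℤ) : ℝ) := by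
    intro i
    simp only [he']
    rw [inner_smul_right, hk]
    push_cast
    ring
  refine ⟨fun i => s i * k (π i), ?_, ?_, ?_, Pd_zero_ne d m⟩
  · simp only [abs_mul, hs2, one_mul]
    exact Equiv.sum_comp π fun i => |k i|
  · intro i j hij
    have hm1 : c • (e' i - e' j) ∈ Ps Φ v := by
      rw [ps_fr F' hgt hpos]
      refine Finset.mem_image.2 ⟨Sum.inl ⟨i, j⟩, ?_, rfl⟩
      rw [Ti, Finset.inl_mem_disjSum, mem_P2]
      exact hij
    have hm2 : c • (e' i + e' j) ∈ Ps Φ v := by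
      rw [ps_fr F' hgt hpos]
      refine Finset.mem_image.2 ⟨Sum.inr (Sum.inl ⟨i, j⟩), ?_, rfl⟩
      rw [Ti, Finset.inr_mem_disjSum, Finset.inl_mem_disjSum, mem_P2]
      exact hij
    have h1 := h.dom _ hm1
    have h2 := h.dom _ hm2
    rw [inner_smul_right, inner_sub_right, hl, hl] at h1
    rw [inner_smul_right, inner_add_right, hl, hl] at h2
    have h3 : 0 ≤ c ^ 2 * (((s i * k (π i) : ℤ) : ℝ) - ((s j * k (π j) : ℤ) : ℝ)) := by
      calc (0 : ℝ) ≤ _ := h1
        _ = _ := by ring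
    have h4 : 0 ≤ c ^ 2 * (((s i * k (π i) : ℤ) : ℝ) + ((s j * k (π j) : ℤ) : ℝ)) := by
      calc (0 : ℝ) ≤ _ := h2
        _ = _ := by ring
    have h5 := nonneg_of_mul_nonneg_right h3 (by positivity)
    have h6 := nonneg_of_mul_nonneg_right h4 (by positivity)
    have h7 : (s j * k (π j)) ≤ (s i * k (π i)) := by
      have : ((s j * k (π j) : ℤ) : ℝ) ≤ ((s i * k (π i) : ℤ) : ℝ) := by linarith
      exact_mod_cast this
    have h8 : -(s i * k (π i)) ≤ (s j * k (π j)) := by
      have : ((-(s i * k (π i)) : ℤ) : ℝ) ≤ ((s j * k (π j) : ℤ) : ℝ) := by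
        rw [Int.cast_neg]
        linarith
      exact_mod_cast this
    exact abs_le.2 ⟨h8, h7⟩
  · have hdim := h.dim
    rw [prod_ps F' hgt hpos, prod_ps F' hgt hpos] at hdim
    -- the two products
    have hA : ∀ (z : E) (y : Fin m → ℝ), (∀ i, (inner ℝ z (e' i) : ℝ) = c * y i) →
        (∏ i, ∏ j ∈ Finset.Ioi i, (inner ℝ z (c • (e' i - e' j)) : ℝ)) *
        ((∏ i, ∏ j ∈ Finset.Ioi i, (inner ℝ z (c • (e' i + e' j)) : ℝ)) *
          (if d = 0 then 1 else ∏ i, (inner ℝ z ((d * c : ℝ) • e' i) : ℝ))) =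
        ((∏ i : Fin m, ∏ _j ∈ Finset.Ioi i, (c ^ 4)) * (if d = 0 then 1 else ∏ _i : Fin m, (d * c ^ 2 : ℝ))) *
          ((∏ i, ∏ j ∈ Finset.Ioi i, (y i ^ 2 - y j ^ 2)) * (if d = 0 then 1 else ∏ i, y i)) := by
      intro z y hz
      rw [← prod_fact]
      congr 1
      · refine Finset.prod_congr rfl fun i _ => Finset.prod_congr rfl fun j _ => ?_
        rw [inner_smul_right, inner_sub_right, hz, hz]
      · congr 1
        · refine Finset.prod_congr rfl fun i _ => Finset.prod_congr rfl fun j _ => ?_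
          rw [inner_smul_right, inner_add_right, hz, hz]
        · split_ifs with h0
          · rfl
          · refine Finset.prod_congr rfl fun i _ => ?_
            rw [inner_smul_right, hz]
    rw [hA v (fun i => (Vd d m i : ℝ)) hV,
      hA ((2 : ℝ) • l + v) (fun i => ((2 * (s i * k (π i)) + Vd d m i : ℤ) : ℝ)) (by
        intro i
        rw [inner_add_left, inner_smul_left, hl, hV]
        simp only [conj_trivial]
        push_cast
        ring)] at hdim
    set κ : ℝ := (∏ i : Fin m, ∏ _j ∈ Finset.Ioi i, (c ^ 4)) * (if d = 0 then 1 else ∏ _i : Fin m, (d * c ^ 2 : ℝ)) with hκ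
    have hκ0 : κ ≠ 0 := by
      rw [hκ]
      refine mul_ne_zero ?_ ?_
      · exact Finset.prod_ne_zero_iff.2 fun i _ => Finset.prod_ne_zero_iff.2 fun j _ => by positivity
      · split_ifs with h0
        · exact one_ne_zero
        · refine Finset.prod_ne_zero_iff.2 fun i _ => ?_
          have : (d : ℝ) ≠ 0 := by exact_mod_cast h0
          positivity
    have h1 : (n : ℝ) * ((∏ i, ∏ j ∈ Finset.Ioi i, ((Vd d m i : ℝ) ^ 2 - (Vd d m j : ℝ) ^ 2)) *
        (if d = 0 then 1 else ∏ i, (Vd d m i : ℝ))) =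
        (∏ i, ∏ j ∈ Finset.Ioi i, (((2 * (s i * k (π i)) + Vd d m i : ℤ) : ℝ) ^ 2 -
          ((2 * (s j * k (π j)) + Vd d m j : ℤ) : ℝ) ^ 2)) *
        (if d = 0 then 1 else ∏ i, ((2 * (s i * k (π i)) + Vd d m i : ℤ) : ℝ)) := by
      apply mul_left_cancel₀ hκ0
      rw [← hdim]
      ring
    have hcast : ∀ y : Fin m → ℤ, ((Pd d m y : ℤ) : ℝ) =
        (∏ i, ∏ j ∈ Finset.Ioi i, (((2 * y i + Vd d m i : ℤ) : ℝ) ^ 2 - ((2 * y j + Vd d m j : ℤ) : ℝ) ^ 2)) *
        (if d = 0 then 1 else ∏ i, ((2 * y i + Vd d m i : ℤ) : ℝ)) := by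
      intro y
      unfold Pd
      rw [Int.cast_mul, Int.cast_prod]
      congr 1
      · refine Finset.prod_congr rfl fun i _ => ?_
        rw [Int.cast_prod]
        refine Finset.prod_congr rfl fun j _ => ?_
        push_cast
        ring
      · split_ifs with h0
        · simp
        · rw [Int.cast_prod]
    have h2 : ((n * Pd d m 0 : ℤ) : ℝ) = ((Pd d m fun i => s i * k (π i) : ℤ) : ℝ) := by
      rw [Int.cast_mul, hcast, hcast, ← h1]
      congr 1
      simp only [Pi.zero_apply, mul_zero, zero_add]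
    exact_mod_cast h2

end

end PW
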